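import Pool.Agent.H18.TD.Targets

/-!
Row ZER of the board td1_modules (MP_58ae59_nt): the zero estimate applied to our points.
-/

set_option autoImplicit false

open Polynomial Module Filter Topology Pool.Agent.H18.TD Pool.Agent.H72.HR

namespace Pool.Agent.H73.TD

theorem gam_add {r l c : ℕ} (X : Matrix (Fin l) (Fin r) ℂ) (Y : Matrix (Fin r) (Fin c) ℂ)
    (s s' : Fin c → ℤ) : Pool.Agent.H18.TD.gam X Y (s + s') =
      Pool.Agent.H18.TD.gam X Y s + Pool.Agent.H18.TD.gam X Y s' := by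
  funext i
  rcases i with i | i
  · simp only [Pool.Agent.H18.TD.gam, Sum.elim_inl, Pi.add_apply, Int.cast_add, mul_add,
      Finset.sum_add_distrib]
  · simp only [Pool.Agent.H18.TD.gam, Sum.elim_inr, Pi.add_apply, Int.cast_add, mul_add,
      Finset.sum_add_distrib]

theorem gam_zero {r l c : ℕ} (X : Matrix (Fin l) (Fin r) ℂ) (Y : Matrix (Fin r) (Fin c) ℂ) :
    Pool.Agent.H18.TD.gam X Y 0 = 0 := by
  have h := gam_add X Y 0 0
  rw [add_zero] at h
  simpa using h

theorem gam_neg {r l c : ℕ} (X : Matrix (Fin l) (Fin r) ℂ) (Y : Matrix (Fin r) (Fin c) ℂ)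
    (s : Fin c → ℤ) : Pool.Agent.H18.TD.gam X Y (-s) = -Pool.Agent.H18.TD.gam X Y s := by
  have h := gam_add X Y (-s) s
  rw [neg_add_cancel, gam_zero] at h
  exact eq_neg_of_add_eq_zero_left h.symm

theorem gam_sub {r l c : ℕ} (X : Matrix (Fin l) (Fin r) ℂ) (Y : Matrix (Fin r) (Fin c) ℂ)
    (s s' : Fin c → ℤ) : Pool.Agent.H18.TD.gam X Y (s - s') =
      Pool.Agent.H18.TD.gam X Y s - Pool.Agent.H18.TD.gam X Y s' := by
  rw [sub_eq_add_neg, gam_add, gam_neg, ← sub_eq_add_neg]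

/-- the group of the indices of the points in a subgroup -/
def GG {r l c : ℕ} (X : Matrix (Fin l) (Fin r) ℂ) (Y : Matrix (Fin r) (Fin c) ℂ)
    (L : Submodule ℂ (Fin r ⊕ Fin l → ℂ)) (Θ : Set (Fin r ⊕ Fin l → ℤ)) :
    AddSubgroup (Fin c → ℤ) where
  carrier := {s | Pool.Agent.H18.TD.gam X Y s ∈ Grp kap L Θ}
  zero_mem' := by
    show Pool.Agent.H18.TD.gam X Y 0 ∈ Grp kap L Θ
    rw [gam_zero]
    refine ⟨?_, fun u _ => by simp⟩
    have h : (fun i : Fin r ⊕ Fin l => if (kap i : Bool) = true then (0 : ℂ)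
        else (0 : Fin r ⊕ Fin l → ℂ) i) = 0 := by
      funext i
      simp
    rw [h]
    exact L.zero_mem
  add_mem' := by
    intro s s' hs hs'
    show Pool.Agent.H18.TD.gam X Y (s + s') ∈ Grp kap L Θ
    rw [gam_add]
    obtain ⟨h1, h2⟩ := hs
    obtain ⟨h3, h4⟩ := hs'
    refine ⟨?_, fun u hu => ?_⟩
    · have h := L.add_mem h1 h3
      have e : (fun i : Fin r ⊕ Fin l => if (kap i : Bool) = true then (0 : ℂ)
          else (Pool.Agent.H18.TD.gam X Y s + Pool.Agent.H18.TD.gam X Y s') i) =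
          (fun i : Fin r ⊕ Fin l => if (kap i : Bool) = true then (0 : ℂ)
            else (Pool.Agent.H18.TD.gam X Y s) i) +
          (fun i : Fin r ⊕ Fin l => if (kap i : Bool) = true then (0 : ℂ)
            else (Pool.Agent.H18.TD.gam X Y s') i) := by
        funext i
        by_cases hk : (kap i : Bool) = true
        · simp [hk]
        · simp [hk]
      rw [e]
      exact h
    · have e : (∑ i, (u i : ℂ) * (Pool.Agent.H18.TD.gam X Y s +
          Pool.Agent.H18.TD.gam X Y s') i) =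
          (∑ i, (u i : ℂ) * (Pool.Agent.H18.TD.gam X Y s) i) +
          ∑ i, (u i : ℂ) * (Pool.Agent.H18.TD.gam X Y s') i := by
        rw [← Finset.sum_add_distrib]
        exact Finset.sum_congr rfl fun i _ => by rw [Pi.add_apply, mul_add]
      rw [e, Complex.exp_add, h2 u hu, h4 u hu, one_mul]
  neg_mem' := by
    intro s hs
    show Pool.Agent.H18.TD.gam X Y (-s) ∈ Grp kap L Θ
    rw [gam_neg]
    obtain ⟨h1, h2⟩ := hs
    refine ⟨?_, fun u hu => ?_⟩
    · have h := L.neg_mem h1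
      have e : (fun i : Fin r ⊕ Fin l => if (kap i : Bool) = true then (0 : ℂ)
          else (-Pool.Agent.H18.TD.gam X Y s) i) =
          -(fun i : Fin r ⊕ Fin l => if (kap i : Bool) = true then (0 : ℂ)
            else (Pool.Agent.H18.TD.gam X Y s) i) := by
        funext i
        by_cases hk : (kap i : Bool) = true
        · simp [hk]
        · simp [hk]
      rw [e]
      exact h
    · have e : (∑ i, (u i : ℂ) * (-Pool.Agent.H18.TD.gam X Y s) i) =
          -∑ i, (u i : ℂ) * (Pool.Agent.H18.TD.gam X Y s) i := by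
        rw [← Finset.sum_neg_distrib]
        exact Finset.sum_congr rfl fun i _ => by rw [Pi.neg_apply, mul_neg]
      rw [e, Complex.exp_neg, h2 u hu, inv_one]

/-- the characters kill the points of the group -/
theorem ortho {r l c n : ℕ} (X : Matrix (Fin l) (Fin r) ℂ) (Y : Matrix (Fin r) (Fin c) ℂ)
    (w : Fin (n + 1) → ℂ) (A : Fin (n + 1) → Matrix (Fin l) (Fin c) ℤ)
    (hXY : ∀ p j, (X * Y) p j = ∑ k, w k * (A k p j : ℂ))
    (hw : ∀ q : Fin (n + 1) → ℤ, Complex.exp (∑ k, (q k : ℂ) * w k) = 1 → q = 0)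
    (u : Fin r ⊕ Fin l → ℤ) (hu : ∀ i, u (Sum.inl i) = 0) (s : Fin c → ℤ)
    (hs : Complex.exp (∑ i, (u i : ℂ) * Pool.Agent.H18.TD.gam X Y s i) = 1) (k : Fin (n + 1)) :
    ∑ p, ∑ j, u (Sum.inr p) * A k p j * s j = 0 := by
  have h := hw (fun k => ∑ p, ∑ j, u (Sum.inr p) * A k p j * s j) ?_
  · exact congrFun h k
  · rw [← hs]
    congr 1
    rw [Fintype.sum_sum_type]
    have h1 : ∑ i : Fin r, ((u (Sum.inl i) : ℤ) : ℂ) *
        Pool.Agent.H18.TD.gam X Y s (Sum.inl i) = 0 := by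
      refine Finset.sum_eq_zero fun i _ => ?_
      rw [hu i, Int.cast_zero, zero_mul]
    rw [h1, zero_add]
    have h2 : ∀ p : Fin l, ((u (Sum.inr p) : ℤ) : ℂ) *
        Pool.Agent.H18.TD.gam X Y s (Sum.inr p) =
        ∑ k, ∑ j, ((u (Sum.inr p) : ℤ) : ℂ) * ((A k p j : ℤ) : ℂ) * ((s j : ℤ) : ℂ) * w k := by
      intro p
      have h3 : Pool.Agent.H18.TD.gam X Y s (Sum.inr p) =
          ∑ j, (∑ k, w k * (A k p j : ℂ)) * (s j : ℂ) := by
        simp only [Pool.Agent.H18.TD.gam, Sum.elim_inr]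
        exact Finset.sum_congr rfl fun j _ => by rw [hXY]
      rw [h3, Finset.mul_sum, Finset.sum_comm]
      refine Finset.sum_congr rfl fun j _ => ?_
      rw [Finset.sum_mul, Finset.mul_sum]
      exact Finset.sum_congr rfl fun k _ => by ring
    rw [Finset.sum_congr rfl fun p _ => h2 p, Finset.sum_comm]
    refine Finset.sum_congr rfl fun k _ => ?_
    push_cast
    rw [Finset.sum_mul]
    refine Finset.sum_congr rfl fun p _ => ?_
    rw [Finset.sum_mul]

/-- the combinatorial inequality -/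
theorem numer {h K b a m M C v e1 e2 F : ℕ} (hh : 2 ≤ h)
    (hF : (h ^ (b * m) + 1) ^ C ≤ F) (he : e2 ≤ e1)
    (H : F * (h ^ M + 1) ^ e1 ≤ K * ((h ^ M) ^ e2 * (h ^ (a * m)) ^ v)) :
    h ^ (b * m * C) ≤ K * h ^ (a * m * v) := by
  have h0 : 0 < h := by omega
  have hP : 0 < (h ^ M) ^ e2 := pow_pos (pow_pos h0 _) _
  have h1 : (h ^ M) ^ e2 ≤ (h ^ M + 1) ^ e1 :=
    (Nat.pow_le_pow_left (Nat.le_succ _) _).trans (Nat.pow_le_pow_right (Nat.succ_pos _) he)
  have h2 : h ^ (b * m * C) ≤ F := by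
    rw [pow_mul]
    exact (Nat.pow_le_pow_left (Nat.le_succ _) _).trans hF
  have h3 : h ^ (b * m * C) * (h ^ M) ^ e2 ≤ K * h ^ (a * m * v) * (h ^ M) ^ e2 := by
    calc h ^ (b * m * C) * (h ^ M) ^ e2 ≤ F * (h ^ M + 1) ^ e1 := Nat.mul_le_mul h2 h1
      _ ≤ K * ((h ^ M) ^ e2 * (h ^ (a * m)) ^ v) := H
      _ = K * h ^ (a * m * v) * (h ^ M) ^ e2 := by rw [pow_mul h (a * m) v]; ring
  exact Nat.le_of_mul_le_mul_right h3 hP

theorem pf_ZER : T_ZE → T_CHV → T_CLB → T_ZR1 → T_ZR2 → T_ZR3 → T_ZR4 → T_ZER := by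
  intro ZE CHV CLB ZR1 ZR2 ZR3 ZR4 r l c n X Y w A a b m M ha hb hm hM hY hXY hw hss
  refine ⟨(r + l) ^ (r + l) + 2, fun h hh P hP hPb => ?_⟩
  by_contra hcon
  push Not at hcon
  have hh2 : 2 ≤ h := by omega
  have hK : (r + l) ^ (r + l) < h := by omega
  have h0 : 0 < h := by omega
  -- the chain
  have hch := CHV (Fin r ⊕ Fin l) (Fin r) (Fin c) kap (Pool.Agent.H18.TD.om X)
    (Pool.Agent.H18.TD.gam X Y) (h ^ M) (h ^ (b * m)) P (gam_add X Y) (r + l) (by
      intro s hs L hL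
      refine hcon L s hL (fun j => ⟨(hs j).1, ?_⟩)
      have := (hs j).2
      push_cast at this
      exact this)
  obtain ⟨L, Θ, hstd, hL1, hL2, hL3, hF⟩ := ZE (Fin r) (Fin l) (h ^ M) (h ^ (a * m)) (h ^ M)
    (Submodule.span ℂ (Set.range (Pool.Agent.H18.TD.om X)))
    (Pool.Agent.H18.TD.gam X Y '' {s | ∀ i, 0 ≤ s i ∧ s i ≤ ((h ^ (b * m) : ℕ) : ℤ)}) P
    (Nat.one_le_pow _ _ h0) (Nat.one_le_pow _ _ h0)
    ⟨0, fun i => ⟨le_rfl, by simp⟩, gam_zero X Y⟩ hP hPb (by
      intro f hf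
      refine hch f ?_
      simpa only [Fintype.card_fin] using hf)
  simp only [Fintype.card_fin] at hL1 hL2 hL3 hF
  obtain ⟨hz1, hz1'⟩ := ZR1 r l _ _ X L Θ hstd
  have hz2 := ZR2 r l _ _ L Θ hstd
  set V : Submodule ℚ (Fin l → ℚ) := Submodule.span ℚ ((fun (u : Fin r ⊕ Fin l → ℤ)
    (a : Fin l) => (u (Sum.inr a) : ℚ)) '' Θ) with hV
  -- the group
  obtain ⟨F0, hF1, hF2, hF3⟩ := CLB (Fin c) (GG X Y L Θ) (h ^ (b * m))
  rw [Fintype.card_fin] at hF3
  have hinj : Set.InjOn (Pool.Agent.H18.TD.gam X Y) (F0 : Set (Fin c → ℤ)) := by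
    intro s hs s' hs' hss'
    refine hF2 s hs s' hs' ?_
    show Pool.Agent.H18.TD.gam X Y (s - s') ∈ Grp kap L Θ
    rw [gam_sub, hss', sub_self, ← gam_zero X Y]
    exact (GG X Y L Θ).zero_mem
  classical
  have hineq := hF (F0.image (Pool.Agent.H18.TD.gam X Y)) (by
      intro g hg
      obtain ⟨s, hs, rfl⟩ := Finset.mem_image.1 hg
      exact ⟨s, hF1 s hs, rfl⟩) (by
      intro g hg g' hg' hgg
      obtain ⟨s, hs, rfl⟩ := Finset.mem_image.1 hg
      obtain ⟨s', hs', rfl⟩ := Finset.mem_image.1 hg'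
      rw [hF2 s hs s' hs' (by
        show Pool.Agent.H18.TD.gam X Y (s - s') ∈ Grp kap L Θ
        rw [gam_sub]
        exact hgg)])
  rw [Finset.card_image_of_injOn hinj, hz1] at hineq
  have hv : l - finrank ℂ (Lie kap (⊥ : Submodule ℂ (Fin r ⊕ Fin l → ℂ)) Θ) = finrank ℚ V := by
    omega
  rw [hv] at hineq
  have key := numer hh2 hF3 (Nat.sub_le_sub_left hz1' r) hineq
  by_cases hVb : V = ⊥
  · -- the additive case
    have hv0 : finrank ℚ V = 0 := by rw [hVb]; simp
    rw [hv0, Nat.mul_zero, pow_zero, mul_one] at key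
    have hLr : finrank ℂ L < r := by omega
    by_cases hcG : c ≤ finrank ℤ (GG X Y L Θ)
    · have := ZR4 r l c Y L (GG X Y L Θ) hY hstd.hL hcG (by
        intro s hs
        have h1 : (fun i : Fin r ⊕ Fin l => if (kap i : Bool) = true then (0 : ℂ)
          else (Pool.Agent.H18.TD.gam X Y s) i) ∈ L := hs.1
        have e : (Sum.elim (fun i => ∑ j, Y i j * (s j : ℂ)) (fun _ => 0) :
            Fin r ⊕ Fin l → ℂ) = (fun i : Fin r ⊕ Fin l => if (kap i : Bool) = true then (0 : ℂ)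
          else (Pool.Agent.H18.TD.gam X Y s) i) := by
          funext i
          rcases i with i | i
          · simp [kap, Pool.Agent.H18.TD.gam]
          · simp [kap]
        rw [e]
        exact h1)
      omega
    · have h1 : 1 ≤ b * m * (c - finrank ℤ (GG X Y L Θ)) :=
        Nat.one_le_iff_ne_zero.2 (Nat.mul_ne_zero (Nat.mul_ne_zero (by omega) (by omega))
          (by omega))
      have h2 : h ^ 1 ≤ h ^ (b * m * (c - finrank ℤ (GG X Y L Θ))) :=
        Nat.pow_le_pow_right h0 h1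
      rw [pow_one] at h2
      omega
  · -- the general case
    set U : Submodule ℚ (Fin c → ℚ) := Submodule.span ℚ
      {x | ∃ k, ∃ y ∈ V, x = Matrix.vecMul y ((A k).map (Int.cast : ℤ → ℚ))} with hU
    have hUV := hss V U (fun k y hy => Submodule.subset_span ⟨k, y, hy, rfl⟩) hVb
    have horth : ∀ s ∈ GG X Y L Θ, ∀ x ∈ U, ∑ j, x j * (s j : ℚ) = 0 := by
      intro s hs x hx
      -- for the characters
      have h1 : ∀ k : Fin (n + 1), ∀ y ∈ V,
          ∑ j, Matrix.vecMul y ((A k).map (Int.cast : ℤ → ℚ)) j * (s j : ℚ) = 0 := by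
        intro k y hy
        rw [hV] at hy
        induction hy using Submodule.span_induction with
        | mem y hy =>
          obtain ⟨u, hu, rfl⟩ := hy
          have h2 := ortho X Y w A hXY hw u (fun i => hstd.hΘ u hu (Sum.inl i) rfl) s
            (hs.2 u hu) k
          have h3 : ((∑ p, ∑ j, u (Sum.inr p) * A k p j * s j : ℤ) : ℚ) = 0 := by
            rw [h2, Int.cast_zero]
          rw [← h3]
          push_cast
          rw [Finset.sum_comm]
          refine Finset.sum_congr rfl fun j _ => ?_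
          simp only [Matrix.vecMul, dotProduct, Matrix.map_apply]
          rw [Finset.sum_mul]
        | zero => simp
        | add y z _ _ h2 h3 =>
          rw [Matrix.add_vecMul]
          simp only [Pi.add_apply, add_mul, Finset.sum_add_distrib, h2, h3, add_zero]
        | smul t y _ h2 =>
          rw [Matrix.smul_vecMul]
          simp only [Pi.smul_apply, smul_eq_mul, mul_assoc, ← Finset.mul_sum, h2, mul_zero]
      rw [hU] at hx
      induction hx using Submodule.span_induction with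
      | mem x hx =>
        obtain ⟨k, y, hy, rfl⟩ := hx
        exact h1 k y hy
      | zero => simp
      | add y z _ _ h2 h3 =>
        simp only [Pi.add_apply, add_mul, Finset.sum_add_distrib, h2, h3, add_zero]
      | smul t y _ h2 =>
        simp only [Pi.smul_apply, smul_eq_mul, mul_assoc, ← Finset.mul_sum, h2, mul_zero]
    have hz3 := ZR3 c (GG X Y L Θ) U horth
    have h1 : finrank ℚ U ≤ c - finrank ℤ (GG X Y L Θ) := by omega
    have h2 : a * finrank ℚ V + 1 ≤ b * (c - finrank ℤ (GG X Y L Θ)) :=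
      Nat.succ_le_of_lt (hUV.trans_le (Nat.mul_le_mul_left b h1))
    have h3 : a * m * finrank ℚ V + 1 ≤ b * m * (c - finrank ℤ (GG X Y L Θ)) := by
      calc a * m * finrank ℚ V + 1 ≤ a * m * finrank ℚ V + m := by omega
        _ = m * (a * finrank ℚ V + 1) := by ring
        _ ≤ m * (b * (c - finrank ℤ (GG X Y L Θ))) := Nat.mul_le_mul_left m h2
        _ = b * m * (c - finrank ℤ (GG X Y L Θ)) := by ring
    have h4 : h ^ (a * m * finrank ℚ V + 1) ≤ (r + l) ^ (r + l) * h ^ (a * m * finrank ℚ V) :=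
      (Nat.pow_le_pow_right h0 h3).trans key
    rw [pow_succ, mul_comm] at h4
    have h5 := Nat.le_of_mul_le_mul_right h4 (pow_pos h0 _)
    omega

end Pool.Agent.H73.TD
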